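import Mathlib
import Pool.Agent.Helper42.DB.Goals2

set_option autoImplicit false

/-!
# MP_48f005_an, packet UNIQ
-/

namespace Pool.Agent.Helper42.DB.PkUNIQ

open Set Filter Topology

theorem thm (S : Sys) : G_ARC S → G_FLB S → G_FLE S → G_BNE S → G_UNIQ S := by
  intro hA hB hE hN n w z z' hn hz hz' h0 hend
  have hi : ∀ k ≤ n, (z k).i = (z' k).i := fun k hk => (hz.2 k hk).trans (hz'.2 k hk).symm
  have hpos : ∀ k ≤ n, (z k).u = (z' k).u → (z' k).pos - (z k).pos = 0 := by
    intro k hk hu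
    unfold St.pos
    rw [hi k hk, hu, sub_self]
  have hP0 : Ep (z 0) (z' 0) = 0 := by
    unfold Ep
    rw [hpos 0 (Nat.zero_le _) h0, dt_zero_right]
  have hMn : Em (z n) (z' n) = 0 := by
    unfold Em
    rw [hpos n le_rfl hend, dt_zero_right]
  have hκ : 0 < S.κ := (hA (z 0).i).1
  have hlen : ∀ k < n, 0 < len (z k) (z (k + 1)) + len (z' k) (z' (k + 1)) := by
    intro k hk
    have h1 := (hz.1.2 k hk).length.1
    have h2 := (hz'.1.2 k hk).length.1
    unfold len
    linarith
  have hFL : ∀ k < n, Ep (z k) (z' k) ≤ Em (z (k + 1)) (z' (k + 1)) := by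
    intro k hk
    rw [hE _ _ _ _ (hz.1.2 k hk) (hz'.1.2 k hk)]
    have h1 := Real.cos_le_one ((z' k).th - (z k).th)
    have h2 := mul_nonneg (hlen k hk).le (sub_nonneg.2 h1)
    linarith
  have hBN : ∀ k ≤ n, Em (z k) (z' k) ≤ Ep (z k) (z' k) := by
    intro k hk
    have h1 := hN _ _ (hi k hk) (hz.1.1 k hk) (hz'.1.1 k hk)
    have h2 := (hz.1.1 k hk).cos_pos
    have h3 := (hz'.1.1 k hk).cos_pos
    have h4 : 0 ≤ 2 * S.κ * (Real.cos (z k).φ + Real.cos (z' k).φ) *
        ‖(z' k).pos - (z k).pos‖ ^ 2 := by positivity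
    linarith
  have hback : ∀ j, j + 1 ≤ n → Em (z (n - j)) (z' (n - j)) ≤ 0 := by
    intro j
    induction j with
    | zero => intro _; rw [Nat.sub_zero, hMn]
    | succ j ih =>
      intro hj
      have h1 := ih (by omega)
      have h2 := hBN (n - (j + 1)) (by omega)
      have h3 := hFL (n - (j + 1)) (by omega)
      have e : n - (j + 1) + 1 = n - j := by omega
      rw [e] at h3
      linarith
  have hM1 := hback (n - 1) (by omega)
  have e1 : n - (n - 1) = 0 + 1 := by omega
  rw [e1, hE _ _ _ _ (hz.1.2 0 hn) (hz'.1.2 0 hn), hP0, zero_add] at hM1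
  have hcos : Real.cos ((z' 0).th - (z 0).th) = 1 := by
    have h1 := Real.cos_le_one ((z' 0).th - (z 0).th)
    have h2 := hlen 0 hn
    by_contra hne
    have h3 : 0 < 1 - Real.cos ((z' 0).th - (z 0).th) := by
      have := lt_of_le_of_ne h1 hne
      linarith
    have := mul_pos h2 h3
    linarith
  have hφ : (z 0).φ = (z' 0).φ := by
    have h1 := abs_lt.1 (hz.1.1 0 (Nat.zero_le _)).2
    have h2 := abs_lt.1 (hz'.1.1 0 (Nat.zero_le _)).2
    have h3 : (z' 0).th - (z 0).th = (z' 0).φ - (z 0).φ := by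
      unfold St.th
      rw [h0]
      ring
    rw [h3] at hcos
    have h4 := (Real.cos_eq_one_iff_of_lt_of_lt (by linarith [Real.pi_pos])
      (by linarith [Real.pi_pos])).1 hcos
    linarith
  have hz0 : z 0 = z' 0 := St.ext (hi 0 (Nat.zero_le _)) h0 hφ
  intro k
  induction k with
  | zero => intro _; exact hz0
  | succ k ih =>
    intro hk
    have h1 := ih (by omega)
    have h2 := hz.1.2 k (by omega)
    have h3 := hz'.1.2 k (by omega)
    rw [← h1] at h3
    exact hB.2.2 _ _ _ h2 h3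

end Pool.Agent.Helper42.DB.PkUNIQ
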