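import Mathlib
import Pool.Agent.Helper42.DB.Goals3

set_option autoImplicit false

/-!
# MP_48f005_an, packet REPAR1: reparametrization of one arc by the normal angle
-/

namespace Pool.Agent.Helper42.DB.PkREPAR1

open Set Filter Topology MeasureTheory

/-- clamp to `[0, 1]` -/
noncomputable def cl (t : ℝ) : ℝ := max 0 (min t 1)

lemma cl_cont : Continuous cl := by unfold cl; fun_prop

lemma cl_mem (t : ℝ) : cl t ∈ Icc (0:ℝ) 1 :=
  ⟨le_max_left _ _, max_le zero_le_one (min_le_right _ _)⟩

lemma cl_eq {t : ℝ} (ht : t ∈ Icc (0:ℝ) 1) : cl t = t := by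
  unfold cl
  rw [min_eq_left ht.2, max_eq_right ht.1]

lemma ee_exp (θ : ℝ) : ee θ = Complex.exp (θ * Complex.I) := by
  apply Complex.ext
  · rw [Complex.exp_ofReal_mul_I_re]; rfl
  · rw [Complex.exp_ofReal_mul_I_im]; rfl

lemma tt_I_ee (θ : ℝ) : tt θ = Complex.I * ee θ := by
  apply Complex.ext <;> simp

theorem thm : G_REPAR1 := by
  intro γ hγ hpos
  set d1 : ℝ → ℂ := deriv γ with hd1
  set d2 : ℝ → ℂ := deriv d1 with hd2
  have hγ' : ∀ t, HasDerivAt γ (d1 t) t := fun t =>
    (hγ.differentiable (by norm_num) t).hasDerivAt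
  have hc1 : ContDiff ℝ 1 d1 := by
    have h2 : ContDiff ℝ (1 + 1) γ := by
      have e : (1 + 1 : WithTop ℕ∞) = 2 := by norm_num
      rw [e]; exact hγ
    exact (contDiff_succ_iff_deriv.1 h2).2.2
  have hd1' : ∀ t, HasDerivAt d1 (d2 t) t := fun t =>
    (hc1.differentiable (by norm_num) t).hasDerivAt
  have c1 : Continuous d1 := hc1.continuous
  have c2 : Continuous d2 := hc1.continuous_deriv (by norm_num)
  have hne : ∀ t ∈ Icc (0:ℝ) 1, d1 t ≠ 0 := by
    intro t ht h0
    have := hpos t ht
    rw [h0] at this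
    simp at this
  have hn : ∀ t ∈ Icc (0:ℝ) 1, 0 < ‖d1 t‖ := fun t ht => norm_pos_iff.2 (hne t ht)
  -- the complex logarithmic derivative
  set q : ℝ → ℂ := fun t => d2 (cl t) / d1 (cl t) with hq
  have cq : Continuous q := by
    apply Continuous.div (c2.comp cl_cont) (c1.comp cl_cont)
    intro t
    exact hne _ (cl_mem t)
  set κ : ℝ → ℝ := fun t => (q t).im with hκ
  have cκ : Continuous κ := Complex.continuous_im.comp cq
  have κpos : ∀ t, 0 < κ t := by
    intro t
    have h1 := hpos (cl t) (cl_mem t)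
    have h2 := hn (cl t) (cl_mem t)
    have h3 : κ t = ((starRingEnd ℂ) (d1 (cl t)) * d2 (cl t)).im / ‖d1 (cl t)‖ ^ 2 := by
      simp only [hκ, hq]
      rw [Complex.div_im, ← Complex.normSq_eq_norm_sq]
      simp only [Complex.mul_im, Complex.conj_re, Complex.conj_im]
      ring
    rw [h3]
    exact div_pos h1 (by positivity)
  obtain ⟨tm, htm, hmin⟩ := isCompact_Icc.exists_isMinOn (nonempty_Icc.2 (zero_le_one (α := ℝ)))
    cκ.continuousOn
  set k0 := κ tm with hk0
  have k0pos : 0 < k0 := κpos tm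
  have κcl : ∀ t, κ t = κ (cl t) := by
    intro t
    simp only [hκ, hq, cl_eq (cl_mem t)]
  have k0le : ∀ t, k0 ≤ κ t := by
    intro t
    rw [κcl t]
    exact hmin (cl_mem t)
  -- the angle
  set σ0 : ℝ := Complex.arg (-(Complex.I * d1 0)) with hσ0
  set σ : ℝ → ℝ := fun t => σ0 + ∫ s in (0:ℝ)..t, κ s with hσ
  have iκ : ∀ a b : ℝ, IntervalIntegrable κ volume a b := fun a b => cκ.intervalIntegrable a b
  have hσd : ∀ t, HasDerivAt σ (κ t) t := fun t =>
    (intervalIntegral.integral_hasDerivAt_right (iκ 0 t)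
      (cκ.stronglyMeasurableAtFilter _ _) cκ.continuousAt).const_add σ0
  have hσc : Continuous σ := continuous_iff_continuousAt.2 fun t => (hσd t).continuousAt
  have hσs : ∀ a b, a ≤ b → k0 * (b - a) ≤ σ b - σ a := by
    intro a b hab
    have h1 : σ b - σ a = ∫ s in a..b, κ s := by
      simp only [hσ]
      rw [← intervalIntegral.integral_add_adjacent_intervals (iκ 0 a) (iκ a b)]
      ring
    rw [h1]
    have h2 : ∫ s in a..b, k0 = k0 * (b - a) := by
      rw [intervalIntegral.integral_const, smul_eq_mul, mul_comm]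
    rw [← h2]
    exact intervalIntegral.integral_mono hab intervalIntegrable_const (iκ a b) k0le
  have hσm : StrictMono σ := by
    intro a b hab
    have := hσs a b hab.le
    have h2 := mul_pos k0pos (sub_pos.2 hab)
    linarith
  have hσsurj : Function.Surjective σ := by
    apply hσc.surjective
    · apply tendsto_atTop_mono' atTop (f₁ := fun t => σ 0 + k0 * t)
      · filter_upwards [eventually_ge_atTop (0:ℝ)] with t ht
        have := hσs 0 t ht
        rw [sub_zero] at this
        linarith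
      · exact tendsto_atTop_add_const_left _ _ (tendsto_id.const_mul_atTop k0pos)
    · refine tendsto_atBot_mono' atBot (f₂ := σ) (f₁ := fun t => σ 0 + k0 * t) ?_
        (tendsto_atBot_add_const_left _ _ (tendsto_id.const_mul_atBot k0pos))
      filter_upwards [eventually_le_atBot (0:ℝ)] with t ht
      have := hσs t 0 ht
      linarith
  set e : ℝ ≃o ℝ := hσm.orderIsoOfSurjective σ hσsurj with he
  have heσ : ∀ t, e t = σ t := fun t => rfl
  have hτ : Continuous e.symm := e.symm.continuous
  have hτσ : ∀ t, e.symm (σ t) = t := fun t => by rw [← heσ, e.symm_apply_apply]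
  -- the radius of curvature
  set h : ℝ → ℝ := fun t => ‖d1 (cl t)‖ / κ t with hh
  have ch : Continuous h := by
    apply Continuous.div _ cκ (fun t => (κpos t).ne')
    exact (c1.comp cl_cont).norm
  have hhpos : ∀ t, 0 < h t := fun t => div_pos (hn _ (cl_mem t)) (κpos t)
  have hcl : ∀ t, h t = h (cl t) := by
    intro t
    simp only [hh, cl_eq (cl_mem t)]
    rw [κcl t]
  obtain ⟨ta, hta, hmina⟩ := isCompact_Icc.exists_isMinOn
    (nonempty_Icc.2 (zero_le_one (α := ℝ))) ch.continuousOn
  obtain ⟨tb, htb, hmaxb⟩ := isCompact_Icc.exists_isMaxOn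
    (nonempty_Icc.2 (zero_le_one (α := ℝ))) ch.continuousOn
  set R : ℝ → ℝ := fun u => h (e.symm u) with hR
  have cR : Continuous R := ch.comp hτ
  have cRt : Continuous (fun u : ℝ => R u • tt u) := cR.smul continuous_tt
  set G : ℝ → ℂ := fun u => γ 0 + ∫ w in σ0..u, R w • tt w with hG
  have hGd : ∀ u, HasDerivAt G (R u • tt u) u := fun u =>
    (intervalIntegral.integral_hasDerivAt_right (cRt.intervalIntegrable σ0 u)
      (cRt.stronglyMeasurableAtFilter _ _) cRt.continuousAt).const_add (γ 0)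
  -- Frenet
  set E : ℝ → ℂ := fun t => ∫ s in (0:ℝ)..t, q s with hE
  have iq : ∀ a b : ℝ, IntervalIntegrable q volume a b := fun a b => cq.intervalIntegrable a b
  have hEd : ∀ t, HasDerivAt E (q t) t := fun t =>
    intervalIntegral.integral_hasDerivAt_right (iq 0 t) (cq.stronglyMeasurableAtFilter _ _)
      cq.continuousAt
  have hEim : ∀ t, (E t).im = σ t - σ0 := by
    intro t
    have h2 := Complex.imCLM.intervalIntegral_comp_comm (iq 0 t)
    simp only [hσ, hE, hκ]
    simp only [Complex.imCLM_apply] at h2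
    rw [← h2]
    ring
  have hfren : ∀ t ∈ Icc (0:ℝ) 1, d1 t * Complex.exp (-E t) = d1 0 * Complex.exp (-E 0) := by
    apply constant_of_has_deriv_right_zero
    · have hEc : Continuous E := continuous_iff_continuousAt.2 fun t => (hEd t).continuousAt
      apply Continuous.continuousOn
      fun_prop
    · intro t ht
      have ht' : t ∈ Icc (0:ℝ) 1 := ⟨ht.1, ht.2.le⟩
      have h1 := (hd1' t).mul ((hEd t).neg.cexp)
      have h2 : d2 t * Complex.exp (-E t) + d1 t * (Complex.exp (-E t) * -q t) = 0 := by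
        have h3 : q t = d2 t / d1 t := by simp only [hq, cl_eq ht']
        rw [h3]
        have := hne t ht'
        field_simp
        ring
      rw [← h2]
      exact h1.hasDerivWithinAt
  have hfren2 : ∀ t ∈ Icc (0:ℝ) 1, d1 t = d1 0 * Complex.exp (E t) := by
    intro t ht
    have h1 := hfren t ht
    have h2 : E 0 = 0 := by simp [hE]
    rw [h2, neg_zero, Complex.exp_zero, mul_one, Complex.exp_neg] at h1
    have h3 : Complex.exp (E t) ≠ 0 := Complex.exp_ne_zero _
    field_simp at h1
    rw [h1, mul_comm]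
  have h0mem : (0:ℝ) ∈ Icc (0:ℝ) 1 := ⟨le_rfl, zero_le_one⟩
  have hee0 : (‖d1 0‖ : ℂ) * ee σ0 = -(Complex.I * d1 0) := by
    have h1 := Complex.norm_mul_exp_arg_mul_I (-(Complex.I * d1 0))
    rw [norm_neg, norm_mul, Complex.norm_I, one_mul] at h1
    rw [ee_exp]
    exact h1
  have hee : ∀ t ∈ Icc (0:ℝ) 1,
      ee (σ t) = -(Complex.I * d1 t) / (‖d1 t‖ : ℂ) := by
    intro t ht
    have h1 := hfren2 t ht
    have h2 : (‖d1 t‖ : ℂ) = (‖d1 0‖ : ℂ) * (Real.exp (E t).re : ℂ) := by
      rw [h1, norm_mul, Complex.norm_exp]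
      push_cast
      rfl
    have h3 : ee (σ t) = ee σ0 * Complex.exp ((E t).im * Complex.I) := by
      rw [ee_exp, ee_exp, ← Complex.exp_add, hEim]
      congr 1
      push_cast
      ring
    have h4 : Complex.exp (E t) = (Real.exp (E t).re : ℂ) *
        Complex.exp ((E t).im * Complex.I) := by
      rw [Complex.ofReal_exp, ← Complex.exp_add, Complex.re_add_im]
    have h5 : (‖d1 t‖ : ℂ) ≠ 0 := by
      exact_mod_cast (hn t ht).ne'
    rw [eq_div_iff h5, h3, h2, h1, h4]
    linear_combination (Complex.exp ((E t).im * Complex.I) * (Real.exp (E t).re : ℂ)) * hee0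
  have htt : ∀ t ∈ Icc (0:ℝ) 1, (‖d1 t‖ : ℂ) * tt (σ t) = d1 t := by
    intro t ht
    have h5 : (‖d1 t‖ : ℂ) ≠ 0 := by
      exact_mod_cast (hn t ht).ne'
    rw [tt_I_ee, hee t ht]
    field_simp
    linear_combination (-d1 t) * Complex.I_sq
  have hGγ : ∀ t ∈ Icc (0:ℝ) 1, G (σ t) = γ t := by
    have hcst : ∀ t ∈ Icc (0:ℝ) 1, G (σ t) - γ t = G (σ 0) - γ 0 := by
      apply constant_of_has_deriv_right_zero
      · have hGc : Continuous G := continuous_iff_continuousAt.2 fun t => (hGd t).continuousAt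
        exact ((hGc.comp hσc).sub hγ.continuous).continuousOn
      · intro t ht
        have ht' : t ∈ Icc (0:ℝ) 1 := ⟨ht.1, ht.2.le⟩
        have h1 : HasDerivAt (fun t => G (σ t)) (κ t • (R (σ t) • tt (σ t))) t :=
          (hGd (σ t)).scomp t (hσd t)
        have h2 := h1.sub (hγ' t)
        have h3 : κ t • (R (σ t) • tt (σ t)) - d1 t = 0 := by
          have h4 : κ t * R (σ t) = ‖d1 t‖ := by
            simp only [hR, hh, hτσ, cl_eq ht']
            have := (κpos t).ne'
            field_simp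
          rw [smul_smul, h4, Complex.real_smul, htt t ht', sub_self]
        rw [← h3]
        exact h2.hasDerivWithinAt
    intro t ht
    have h1 := hcst t ht
    have h2 : G (σ 0) = γ 0 := by
      have : σ 0 = σ0 := by simp [hσ]
      rw [this]
      simp [hG]
    rw [h2, sub_self, sub_eq_zero] at h1
    exact h1
  refine ⟨⟨G, R, cR, fun u => (hhpos _).le, hGd⟩, σ, h ta, h tb, hhpos ta, ?_, ?_,
    hσc.continuousOn, hσm.strictMonoOn _, fun t ht => ⟨hne t ht, hGγ t ht, hee t ht⟩⟩
  · intro u
    show h ta ≤ h (e.symm u)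
    rw [hcl (e.symm u)]
    exact hmina (cl_mem _)
  · intro u
    show h (e.symm u) ≤ h tb
    rw [hcl (e.symm u)]
    exact hmaxb (cl_mem _)

end Pool.Agent.Helper42.DB.PkREPAR1
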